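import Pool.Agent.Lib.Incidence.Planar

/-!
The crossing-lemma inequality for the graph of consecutive points on a family of lines.
-/

namespace Pool.Agent.Lib.Incidence

open Finset

section Sampling

variable {α ι : Type*} [DecidableEq α]

/-- Bernoulli weight of the subset `A` of `S`. -/
def wt (p : ℝ) (S A : Finset α) : ℝ := (∏ _i ∈ A, p) * ∏ _i ∈ S \ A, (1 - p)

lemma wt_nonneg {p : ℝ} (h0 : 0 ≤ p) (h1 : p ≤ 1) (S A : Finset α) : 0 ≤ wt p S A :=
  mul_nonneg (prod_nonneg fun _ _ => h0) (prod_nonneg fun _ _ => by linarith)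

lemma sum_wt_subset (p : ℝ) (S B : Finset α) (hB : B ⊆ S) :
    ∑ A ∈ S.powerset, wt p S A * (if B ⊆ A then 1 else 0) = p ^ B.card := by
  have h := Finset.prod_add (fun _ : α => p) (fun i => if i ∈ B then 0 else 1 - p) S
  have h2 : ∏ i ∈ S, (p + if i ∈ B then 0 else 1 - p) = p ^ B.card := by
    have : ∀ i ∈ S, (p + if i ∈ B then 0 else 1 - p) = if i ∈ B then p else 1 := by
      intro i _
      split_ifs <;> ring
    rw [prod_congr rfl this, prod_ite_mem, inter_eq_right.2 hB, prod_const]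
  rw [← h2, h]
  refine sum_congr rfl fun A hA => ?_
  unfold wt
  rw [mul_assoc]
  congr 1
  split_ifs with c
  · rw [mul_one]
    refine prod_congr rfl fun i hi => ?_
    rw [if_neg]
    exact fun hb => (mem_sdiff.1 hi).2 (c hb)
  · rw [mul_zero]
    obtain ⟨i, hi, hiA⟩ := not_subset.1 c
    symm
    apply prod_eq_zero (mem_sdiff.2 ⟨hB hi, hiA⟩)
    exact if_pos hi

lemma sum_wt_card (p : ℝ) (S : Finset α) (I : Finset ι) (B : ι → Finset α) (k : ℕ)
    (hB : ∀ i ∈ I, B i ⊆ S ∧ (B i).card = k) :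
    ∑ A ∈ S.powerset, wt p S A * ((I.filter fun i => B i ⊆ A).card : ℝ) = I.card * p ^ k := by
  have : ∀ A ∈ S.powerset, wt p S A * ((I.filter fun i => B i ⊆ A).card : ℝ)
      = ∑ i ∈ I, wt p S A * (if B i ⊆ A then 1 else 0) := by
    intro A _
    rw [← mul_sum, card_filter]
    push_cast
    rfl
  rw [sum_congr rfl this, sum_comm]
  rw [sum_congr rfl fun i hi => (sum_wt_subset p S (B i) (hB i hi).1).trans
    (by rw [(hB i hi).2])]
  simp

end Sampling

open Classical in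
/-- The points of `S` on the line `l`. -/
noncomputable def pts (S : Finset (ℝ × ℝ)) (l : ℝ × ℝ) : Finset (ℝ × ℝ) := S.filter (On l)

lemma mem_pts {S : Finset (ℝ × ℝ)} {l p : ℝ × ℝ} : p ∈ pts S l ↔ p ∈ S ∧ On l p := by
  classical
  unfold pts
  exact mem_filter

lemma On.eq_of_fst {l u v : ℝ × ℝ} (hu : On l u) (hv : On l v) (h : u.1 = v.1) : u = v := by
  unfold On at hu hv
  exact Prod.ext h (by rw [hu, hv, h])

lemma line_eq {l l' : ℝ × ℝ} {x y : ℝ} (hxy : x ≠ y) (hx : l.1 * x + l.2 = l'.1 * x + l'.2)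
    (hy : l.1 * y + l.2 = l'.1 * y + l'.2) : l = l' := by
  have h1 : (l.1 - l'.1) * (x - y) = 0 := by linear_combination hx - hy
  have h2 : l.1 = l'.1 := by
    rcases mul_eq_zero.1 h1 with h | h
    · linarith
    · exact absurd (by linarith) hxy
  refine Prod.ext h2 ?_
  rw [h2] at hx
  linarith

/-- `e` joins two consecutive points of `S` on a line of `L`. -/
structure Consec (S L : Finset (ℝ × ℝ)) (e : Edge) : Prop where
  hl : e.l ∈ L
  ha : e.a ∈ S
  hb : e.b ∈ S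
  la : On e.l e.a
  lb : On e.l e.b
  lt : e.a.1 < e.b.1
  hv : ∀ w ∈ S, e.a.1 < w.1 → w.1 < e.b.1 → ¬ On e.l w

open Classical in
/-- All edges joining consecutive points. -/
noncomputable def edges (S L : Finset (ℝ × ℝ)) : Finset Edge :=
  ((L ×ˢ S ×ˢ S).image fun t => (⟨t.1, t.2.1, t.2.2⟩ : Edge)).filter (Consec S L)

lemma mem_edges {S L : Finset (ℝ × ℝ)} {e : Edge} : e ∈ edges S L ↔ Consec S L e := by
  classical
  unfold edges
  rw [mem_filter]
  refine ⟨fun h => h.2, fun h => ⟨?_, h⟩⟩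
  exact mem_image.2 ⟨(e.l, e.a, e.b), by simp [h.hl, h.ha, h.hb], rfl⟩

lemma Consec.uniq {S L : Finset (ℝ × ℝ)} {e g : Edge} (he : Consec S L e) (hg : Consec S L g)
    (hl : e.l = g.l) {x : ℝ} (h1 : e.a.1 < x) (h2 : x < e.b.1) (h3 : g.a.1 < x)
    (h4 : x < g.b.1) : e = g := by
  have ha : e.a = g.a := by
    refine he.la.eq_of_fst (hl ▸ hg.la) ?_
    rcases lt_trichotomy e.a.1 g.a.1 with c | c | c
    · exact (he.hv g.a hg.ha c (by linarith) (hl ▸ hg.la)).elim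
    · exact c
    · exact (hg.hv e.a he.ha c (by linarith) (hl ▸ he.la)).elim
  have hb : e.b = g.b := by
    refine he.lb.eq_of_fst (hl ▸ hg.lb) ?_
    rcases lt_trichotomy e.b.1 g.b.1 with c | c | c
    · exact (hg.hv e.b he.hb (by linarith) c (hl ▸ he.lb)).elim
    · exact c
    · exact (he.hv g.b hg.hb (by linarith) c (hl ▸ hg.lb)).elim
  cases e
  cases g
  simp_all

lemma card_edges (S L : Finset (ℝ × ℝ)) :
    ∑ l ∈ L, (((pts S l).card : ℝ) - 1) ≤ (edges S L).card := by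
  classical
  have h := card_eq_sum_card_fiberwise (s := edges S L) (t := L) (f := fun e => e.l)
    (fun e he => (mem_edges.1 he).hl)
  rw [h]
  push_cast
  refine sum_le_sum fun l hl => ?_
  rcases (pts S l).eq_empty_or_nonempty with h0 | h0
  · rw [h0]
    simp only [card_empty, Nat.cast_zero]
    have : (0 : ℝ) ≤ ((edges S L).filter fun e => e.l = l).card := by positivity
    linarith
  obtain ⟨mx, hmx, hmax⟩ := exists_max_image (pts S l) (fun u => u.1) h0
  have hsub : (pts S l).erase mx ⊆ ((edges S L).filter fun e => e.l = l).image fun e => e.a := by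
    intro a ha
    obtain ⟨hne, ha⟩ := mem_erase.1 ha
    have hlt : a.1 < mx.1 := lt_of_le_of_ne (hmax a ha) fun hh =>
      hne ((mem_pts.1 ha).2.eq_of_fst (mem_pts.1 hmx).2 hh)
    obtain ⟨b, hb, hmin⟩ := exists_min_image ((pts S l).filter fun u => a.1 < u.1) (fun u => u.1)
      ⟨mx, mem_filter.2 ⟨hmx, hlt⟩⟩
    obtain ⟨hb, hab⟩ := mem_filter.1 hb
    refine mem_image.2 ⟨⟨l, a, b⟩, mem_filter.2 ⟨mem_edges.2 ?_, rfl⟩, rfl⟩
    refine ⟨hl, (mem_pts.1 ha).1, (mem_pts.1 hb).1, (mem_pts.1 ha).2, (mem_pts.1 hb).2, hab, ?_⟩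
    intro w hw w1 w2 w3
    have := hmin w (mem_filter.2 ⟨mem_pts.2 ⟨hw, w3⟩, w1⟩)
    exact absurd w2 (not_lt.2 this)
  have h1 := (card_le_card hsub).trans card_image_le
  rw [card_erase_of_mem hmx] at h1
  have h2 : 1 ≤ (pts S l).card := card_pos.2 h0
  have h3 : (pts S l).card ≤ ((edges S L).filter fun e => e.l = l).card + 1 := by omega
  have h4 : ((pts S l).card : ℝ) ≤ ((edges S L).filter fun e => e.l = l).card + 1 := by
    exact_mod_cast h3
  linarith

/-- Two edges cross at a point interior to both. -/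
def Cross (e g : Edge) : Prop :=
  e ≠ g ∧ ∃ x, e.a.1 < x ∧ x < e.b.1 ∧ g.a.1 < x ∧ x < g.b.1 ∧ e.ht x = g.ht x

open Classical in
/-- Ordered pairs of distinct lines of `L` that meet outside `S`. -/
noncomputable def meetOut (S L : Finset (ℝ × ℝ)) : Finset ((ℝ × ℝ) × (ℝ × ℝ)) :=
  (L ×ˢ L).filter fun t => t.1 ≠ t.2 ∧ ∃ z, On t.1 z ∧ On t.2 z ∧ z ∉ S

lemma mem_meetOut {S L : Finset (ℝ × ℝ)} {t : (ℝ × ℝ) × (ℝ × ℝ)} :
    t ∈ meetOut S L ↔ (t.1 ∈ L ∧ t.2 ∈ L) ∧ t.1 ≠ t.2 ∧ ∃ z, On t.1 z ∧ On t.2 z ∧ z ∉ S := by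
  classical
  unfold meetOut
  rw [mem_filter, mem_product]

open Classical in
/-- Ordered crossing pairs of edges. -/
noncomputable def crosses (S L : Finset (ℝ × ℝ)) : Finset (Edge × Edge) :=
  (edges S L ×ˢ edges S L).filter fun t => Cross t.1 t.2

lemma mem_crosses {S L : Finset (ℝ × ℝ)} {t : Edge × Edge} :
    t ∈ crosses S L ↔ (Consec S L t.1 ∧ Consec S L t.2) ∧ Cross t.1 t.2 := by
  classical
  unfold crosses
  rw [mem_filter, mem_product, mem_edges, mem_edges]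

lemma Cross.line_ne {S L : Finset (ℝ × ℝ)} {e g : Edge} (he : Consec S L e) (hg : Consec S L g)
    (h : Cross e g) : e.l ≠ g.l := by
  intro hl
  obtain ⟨hne, x, x1, x2, x3, x4, -⟩ := h
  exact hne (he.uniq hg hl x1 x2 x3 x4)

lemma card_crosses (S L : Finset (ℝ × ℝ)) : (crosses S L).card ≤ (meetOut S L).card := by
  refine card_le_card_of_injOn (fun t => (t.1.l, t.2.l)) ?_ ?_
  · intro t ht
    obtain ⟨⟨h1, h2⟩, h3⟩ := mem_crosses.1 ht
    refine mem_meetOut.2 ⟨⟨h1.hl, h2.hl⟩, h3.line_ne h1 h2, ?_⟩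
    obtain ⟨-, x, x1, x2, -, -, x5⟩ := h3
    refine ⟨(x, t.1.ht x), rfl, x5, fun hS => h1.hv _ hS x1 x2 rfl⟩
  · intro t ht s hs hts
    obtain ⟨⟨h1, h2⟩, h3⟩ := mem_crosses.1 ht
    obtain ⟨⟨g1, g2⟩, g3⟩ := mem_crosses.1 hs
    have hne := h3.line_ne h1 h2
    obtain ⟨-, x, x1, x2, x3, x4, x5⟩ := h3
    obtain ⟨-, y, y1, y2, y3, y4, y5⟩ := g3
    have e1 : t.1.l = s.1.l := congrArg Prod.fst hts
    have e2 : t.2.l = s.2.l := congrArg Prod.snd hts
    have hxy : x = y := by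
      by_contra hxy
      unfold Edge.ht at x5 y5
      rw [← e1, ← e2] at y5
      exact hne (line_eq hxy x5 y5)
    subst hxy
    exact Prod.ext (h1.uniq g1 e1 x1 x2 y1 y2) (h2.uniq g2 e2 x3 x4 y3 y4)

lemma Cross.card_four {S L : Finset (ℝ × ℝ)} {e g : Edge} (he : Consec S L e)
    (hg : Consec S L g) (h : Cross e g) :
    ({e.a, e.b, g.a, g.b} : Finset (ℝ × ℝ)).card = 4 := by
  have hne := h.line_ne he hg
  obtain ⟨-, x, x1, x2, x3, x4, x5⟩ := h
  have key : ∀ u : ℝ × ℝ, On e.l u → On g.l u → u.1 ≠ x → False := by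
    intro u u1 u2 u3
    unfold On at u1 u2
    exact hne (line_eq u3 (u1.symm.trans u2) x5)
  have n1 : e.a ≠ e.b := fun hh => he.lt.ne (by rw [hh])
  have n2 : g.a ≠ g.b := fun hh => hg.lt.ne (by rw [hh])
  have n3 : e.a ≠ g.a := fun hh => key e.a he.la (hh ▸ hg.la) x1.ne
  have n4 : e.a ≠ g.b := fun hh => key e.a he.la (hh ▸ hg.lb) x1.ne
  have n5 : e.b ≠ g.a := fun hh => key e.b he.lb (hh ▸ hg.la) x2.ne'
  have n6 : e.b ≠ g.b := fun hh => key e.b he.lb (hh ▸ hg.lb) x2.ne'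
  rw [card_insert_of_notMem (by simp [n1, n3, n4]), card_insert_of_notMem (by simp [n5, n6]),
    card_pair n2]

lemma sample_bound {S L : Finset (ℝ × ℝ)} (inj : ∀ v ∈ S, ∀ w ∈ S, v.1 = w.1 → v = w)
    {A : Finset (ℝ × ℝ)} (hA : A ⊆ S) :
    ((edges S L).filter fun e => ({e.a, e.b} : Finset (ℝ × ℝ)) ⊆ A).card ≤
      3 * (S.filter fun v => ({v} : Finset (ℝ × ℝ)) ⊆ A).card +
      ((crosses S L).filter fun t =>
        ({t.1.a, t.1.b, t.2.a, t.2.b} : Finset (ℝ × ℝ)) ⊆ A).card := by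
  classical
  set EA := (edges S L).filter fun e => ({e.a, e.b} : Finset (ℝ × ℝ)) ⊆ A with hEA
  have mEA : ∀ e, e ∈ EA ↔ Consec S L e ∧ e.a ∈ A ∧ e.b ∈ A := by
    intro e
    rw [hEA, mem_filter, mem_edges, insert_subset_iff, singleton_subset_iff]
  have hS : (S.filter fun v => ({v} : Finset (ℝ × ℝ)) ⊆ A) = A := by
    ext v
    rw [mem_filter, singleton_subset_iff]
    exact ⟨fun h => h.2, fun h => ⟨hA h, h⟩⟩
  rw [hS]
  have hsplit := card_filter_add_card_filter_not (s := EA) (fun e => ∃ g ∈ EA, Cross e g)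
  have h1 : (EA.filter fun e => ¬ ∃ g ∈ EA, Cross e g).card ≤ 3 * A.card := by
    refine Plane.card_le ⟨?_, ?_, ?_, ?_, ?_, ?_, ?_, ?_⟩
    · intro e he; exact ((mEA e).1 (mem_filter.1 he).1).2.1
    · intro e he; exact ((mEA e).1 (mem_filter.1 he).1).2.2
    · intro e he; exact ((mEA e).1 (mem_filter.1 he).1).1.la
    · intro e he; exact ((mEA e).1 (mem_filter.1 he).1).1.lb
    · intro e he; exact ((mEA e).1 (mem_filter.1 he).1).1.lt
    · intro e he w hw; exact ((mEA e).1 (mem_filter.1 he).1).1.hv w (hA hw)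
    · intro e he g hg hne x x1 x2 x3 x4 x5
      exact (mem_filter.1 he).2 ⟨g, (mem_filter.1 hg).1, hne, x, x1, x2, x3, x4, x5⟩
    · intro v hv w hw; exact inj v (hA hv) w (hA hw)
  have h2 : (EA.filter fun e => ∃ g ∈ EA, Cross e g).card ≤ ((crosses S L).filter fun t =>
        ({t.1.a, t.1.b, t.2.a, t.2.b} : Finset (ℝ × ℝ)) ⊆ A).card := by
    refine le_trans (card_le_card ?_) (card_image_le (f := Prod.fst))
    intro e he
    obtain ⟨he, g, hg, hc⟩ := mem_filter.1 he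
    obtain ⟨e1, e2, e3⟩ := (mEA e).1 he
    obtain ⟨g1, g2, g3⟩ := (mEA g).1 hg
    refine mem_image.2 ⟨(e, g), mem_filter.2 ⟨mem_crosses.2 ⟨⟨e1, g1⟩, hc⟩, ?_⟩, rfl⟩
    simp [insert_subset_iff, e2, e3, g2, g3]
  omega

/-- Crossing-lemma inequality, vertices with distinct abscissae. -/
theorem crossing_ineq_inj {S L : Finset (ℝ × ℝ)} (inj : ∀ v ∈ S, ∀ w ∈ S, v.1 = w.1 → v = w)
    {p : ℝ} (h0 : 0 ≤ p) (h1 : p ≤ 1) :
    p ^ 2 * ∑ l ∈ L, (((pts S l).card : ℝ) - 1) ≤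
      3 * p * S.card + p ^ 4 * (meetOut S L).card := by
  classical
  have s1 := sum_wt_card p S (edges S L) (fun e => ({e.a, e.b} : Finset (ℝ × ℝ))) 2 (by
    intro e he
    have he := mem_edges.1 he
    refine ⟨by simp [insert_subset_iff, he.ha, he.hb], card_pair fun hh => he.lt.ne (by rw [hh])⟩)
  have s2 := sum_wt_card p S S (fun v => ({v} : Finset (ℝ × ℝ))) 1 (by
    intro v hv
    exact ⟨by simpa using hv, card_singleton v⟩)
  have s3 := sum_wt_card p S (crosses S L)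
    (fun t => ({t.1.a, t.1.b, t.2.a, t.2.b} : Finset (ℝ × ℝ))) 4 (by
    intro t ht
    obtain ⟨⟨e1, e2⟩, e3⟩ := mem_crosses.1 ht
    exact ⟨by simp [insert_subset_iff, e1.ha, e1.hb, e2.ha, e2.hb], e3.card_four e1 e2⟩)
  have s4 : (edges S L).card * p ^ 2 ≤ 3 * (S.card * p ^ 1) + (crosses S L).card * p ^ 4 := by
    rw [← s1, ← s2, ← s3, mul_sum, ← sum_add_distrib]
    refine sum_le_sum fun A hA => ?_
    have hw := wt_nonneg h0 h1 S A
    have hb := sample_bound (L := L) inj (mem_powerset.1 hA)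
    have hb' : (((edges S L).filter fun e => ({e.a, e.b} : Finset (ℝ × ℝ)) ⊆ A).card : ℝ) ≤
      3 * (S.filter fun v => ({v} : Finset (ℝ × ℝ)) ⊆ A).card +
      ((crosses S L).filter fun t =>
        ({t.1.a, t.1.b, t.2.a, t.2.b} : Finset (ℝ × ℝ)) ⊆ A).card := by exact_mod_cast hb
    nlinarith [mul_le_mul_of_nonneg_left hb' hw]
  have s5 := card_edges S L
  have s6 : ((crosses S L).card : ℝ) ≤ (meetOut S L).card := by exact_mod_cast card_crosses S L
  have p2 : 0 ≤ p ^ 2 := by positivity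
  have p4 : 0 ≤ p ^ 4 := by positivity
  nlinarith [mul_le_mul_of_nonneg_left s5 p2, mul_le_mul_of_nonneg_left s6 p4]

end Pool.Agent.Lib.Incidence
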