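import Mathlib

/-!
Straight-line plane graphs have at most three times as many edges as vertices.
Edges lie on non-vertical lines `y = l.1 * x + l.2`; vertices have distinct abscissae.
-/

namespace Pool.Agent.Lib.Incidence

open Finset

/-- The point `p` lies on the non-vertical line `y = l.1 * x + l.2`. -/
def On (l p : ℝ × ℝ) : Prop := p.2 = l.1 * p.1 + l.2

/-- A segment from `a` to `b` on the line `l`. -/
structure Edge where
  l : ℝ × ℝ
  a : ℝ × ℝ
  b : ℝ × ℝ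

/-- Height of the carrying line above the abscissa `x`. -/
def Edge.ht (e : Edge) (x : ℝ) : ℝ := e.l.1 * x + e.l.2

/-- `E` is a family of pairwise non-crossing segments with vertices in `S`. -/
structure Plane (S : Finset (ℝ × ℝ)) (E : Finset Edge) : Prop where
  ha : ∀ e ∈ E, e.a ∈ S
  hb : ∀ e ∈ E, e.b ∈ S
  la : ∀ e ∈ E, On e.l e.a
  lb : ∀ e ∈ E, On e.l e.b
  lt : ∀ e ∈ E, e.a.1 < e.b.1
  hv : ∀ e ∈ E, ∀ w ∈ S, e.a.1 < w.1 → w.1 < e.b.1 → ¬ On e.l w
  hx : ∀ e ∈ E, ∀ e' ∈ E, e ≠ e' → ∀ x, e.a.1 < x → x < e.b.1 → e'.a.1 < x → x < e'.b.1 →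
    e.ht x ≠ e'.ht x
  inj : ∀ v ∈ S, ∀ w ∈ S, v.1 = w.1 → v = w

lemma ivt (e g : Edge) {x0 x1 : ℝ} (hx : x0 < x1) (h0 : e.ht x0 < g.ht x0)
    (h1 : g.ht x1 < e.ht x1) : ∃ x, x0 < x ∧ x < x1 ∧ e.ht x = g.ht x := by
  unfold Edge.ht at *
  set d0 := g.l.1 * x0 + g.l.2 - (e.l.1 * x0 + e.l.2) with hd0
  set d1 := e.l.1 * x1 + e.l.2 - (g.l.1 * x1 + g.l.2) with hd1
  have p0 : 0 < d0 := by linarith
  have p1 : 0 < d1 := by linarith
  have ps : 0 < d0 + d1 := by linarith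
  refine ⟨(d1 * x0 + d0 * x1) / (d0 + d1), ?_, ?_, ?_⟩
  · rw [lt_div_iff₀ ps]; nlinarith
  · rw [div_lt_iff₀ ps]; nlinarith
  · field_simp
    rw [hd0, hd1]; ring

variable {S : Finset (ℝ × ℝ)} {E : Finset Edge}

lemma Plane.eq_of_slope (h : Plane S E) {e g : Edge} (he : e ∈ E) (hg : g ∈ E)
    (ha : e.a = g.a) (hs : e.l.1 = g.l.1) : e = g := by
  by_contra hne
  have h1 := h.la e he
  have h2 := h.la g hg
  have h3 := h.lt e he
  have h4 := h.lt g hg
  unfold On at h1 h2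
  rw [← ha] at h2 h4
  have hm : e.a.1 < min e.b.1 g.b.1 := lt_min h3 h4
  have m1 := min_le_left e.b.1 g.b.1
  have m2 := min_le_right e.b.1 g.b.1
  refine h.hx e he g hg hne ((e.a.1 + min e.b.1 g.b.1) / 2) (by linarith) (by linarith)
    (by rw [← ha]; linarith) (by linarith) ?_
  unfold Edge.ht
  rw [hs] at h1 ⊢
  linarith

/-- `e` and `e'` leave the same vertex with consecutive slopes, and `w` is the leftmost vertex
in the closed wedge between them. -/
structure Wedge (S : Finset (ℝ × ℝ)) (E : Finset Edge) (e e' : Edge) (w : ℝ × ℝ) : Prop where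
  he : e ∈ E
  he' : e' ∈ E
  ea : e.a = e'.a
  sl : e.l.1 < e'.l.1
  cons : ∀ g ∈ E, g.a = e.a → e.l.1 < g.l.1 → g.l.1 < e'.l.1 → False
  hw : w ∈ S
  wx : e.a.1 < w.1
  lo : e.ht w.1 ≤ w.2
  hi : w.2 ≤ e'.ht w.1
  mn : ∀ u ∈ S, e.a.1 < u.1 → e.ht u.1 ≤ u.2 → u.2 ≤ e'.ht u.1 → w.1 ≤ u.1

lemma ht_sub (h : Plane S E) {e g : Edge} (he : e ∈ E) (hg : g ∈ E) (ha : e.a = g.a) (x : ℝ) :
    g.ht x - e.ht x = (g.l.1 - e.l.1) * (x - e.a.1) := by
  have h1 := h.la e he
  have h2 := h.la g hg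
  unfold On at h1 h2
  rw [← ha] at h2
  unfold Edge.ht
  linear_combination h1 - h2

lemma Wedge.le_b (h : Plane S E) {e e' : Edge} {w : ℝ × ℝ} (W : Wedge S E e e' w) :
    w.1 ≤ e.b.1 := by
  have h1 : e.b.2 = e.ht e.b.1 := h.lb e W.he
  have h2 := ht_sub h W.he W.he' W.ea e.b.1
  have h3 := h.lt e W.he
  have h4 := W.sl
  refine W.mn _ (h.hb e W.he) h3 h1.ge ?_
  nlinarith

lemma Wedge.le_b' (h : Plane S E) {e e' : Edge} {w : ℝ × ℝ} (W : Wedge S E e e' w) :
    w.1 ≤ e'.b.1 := by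
  have h1 : e'.b.2 = e'.ht e'.b.1 := h.lb e' W.he'
  have h2 := ht_sub h W.he W.he' W.ea e'.b.1
  have h3 := h.lt e' W.he'
  rw [← W.ea] at h3
  have h4 := W.sl
  refine W.mn _ (h.hb e' W.he') h3 ?_ h1.le
  nlinarith

lemma Wedge.noEnter (h : Plane S E) {e e' : Edge} {w : ℝ × ℝ} (W : Wedge S E e e' w)
    {g : Edge} (hg : g ∈ E) (h1 : g.a.1 < w.1) (h2 : w.1 ≤ g.b.1)
    (h3 : e.ht w.1 < g.ht w.1) (h4 : g.ht w.1 < e'.ht w.1) : False := by
  have hge : g ≠ e := by rintro rfl; exact lt_irrefl _ h3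
  have hge' : g ≠ e' := by rintro rfl; exact lt_irrefl _ h4
  have b1 := W.le_b h
  have b2 := W.le_b' h
  have wx := W.wx
  have ea1 : e.a.1 = e'.a.1 := by rw [W.ea]
  -- general crossing step
  have key : ∀ x0, e.a.1 ≤ x0 → g.a.1 ≤ x0 → x0 < w.1 →
      (g.ht x0 < e.ht x0 ∨ e'.ht x0 < g.ht x0) → False := by
    intro x0 a1 a2 a3 a4
    rcases a4 with a4 | a4
    · obtain ⟨x, x1, x2, x3⟩ := ivt g e a3 a4 h3
      exact h.hx g hg e W.he hge x (by linarith) (by linarith) (by linarith) (by linarith) x3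
    · obtain ⟨x, x1, x2, x3⟩ := ivt e' g a3 a4 h4
      exact h.hx g hg e' W.he' hge' x (by linarith) (by linarith) (by linarith) (by linarith)
        x3.symm
  rcases lt_trichotomy g.a.1 e.a.1 with c | c | c
  · have hne := h.hv g hg e.a (h.ha e W.he) c (by linarith)
    have e1 : e.a.2 = e.ht e.a.1 := h.la e W.he
    have e2 : e.a.2 = e'.ht e.a.1 := by
      have := h.la e' W.he'
      rw [← W.ea] at this
      exact this
    have hne' : g.ht e.a.1 ≠ e.a.2 := fun hh => hne hh.symm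
    refine key e.a.1 le_rfl c.le wx ?_
    rcases lt_or_gt_of_ne hne' with c1 | c1
    · left; linarith
    · right; linarith
  · have hga : g.a = e.a := h.inj _ (h.ha g hg) _ (h.ha e W.he) c
    have s1 := ht_sub h W.he hg hga.symm w.1
    have s2 := ht_sub h hg W.he' (hga.trans W.ea) w.1
    refine W.cons g hg hga ?_ ?_
    · by_contra hc
      push Not at hc
      nlinarith
    · by_contra hc
      push Not at hc
      nlinarith
  · have e1 : g.a.2 = g.ht g.a.1 := h.la g hg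
    refine key g.a.1 c.le le_rfl h1 ?_
    by_contra hc
    push Not at hc
    have := W.mn g.a (h.ha g hg) c (by linarith) (by linarith)
    linarith

lemma exists_wedge (h : Plane S E) {e' : Edge} (he' : e' ∈ E)
    (hex : ∃ e ∈ E, e.a = e'.a ∧ e.l.1 < e'.l.1) : ∃ e w, Wedge S E e e' w := by
  classical
  obtain ⟨e, he, hmax⟩ := exists_max_image (E.filter fun e => e.a = e'.a ∧ e.l.1 < e'.l.1)
    (fun e => e.l.1) (by
      obtain ⟨e, h1, h2⟩ := hex
      exact ⟨e, mem_filter.2 ⟨h1, h2⟩⟩)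
  obtain ⟨he, ea, sl⟩ := mem_filter.1 he
  obtain ⟨w, hw, hmin⟩ := exists_min_image
    (S.filter fun u => e.a.1 < u.1 ∧ e.ht u.1 ≤ u.2 ∧ u.2 ≤ e'.ht u.1) (fun u => u.1) (by
      have h1 : e.b.2 = e.ht e.b.1 := h.lb e he
      have h2 := ht_sub h he he' ea e.b.1
      have h3 := h.lt e he
      exact ⟨e.b, mem_filter.2 ⟨h.hb e he, h3, h1.ge, by nlinarith⟩⟩)
  obtain ⟨hw, w1, w2, w3⟩ := mem_filter.1 hw
  refine ⟨e, w, he, he', ea, sl, ?_, hw, w1, w2, w3, ?_⟩
  · intro g hg ga g1 g2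
    have := hmax g (mem_filter.2 ⟨hg, ga.trans ea, g2⟩)
    exact absurd g1 (not_lt.2 this)
  · intro u hu u1 u2 u3
    exact hmin u (mem_filter.2 ⟨hu, u1, u2, u3⟩)

lemma wedge_up (h : Plane S E) {e1 e1' e2 e2' : Edge} {w : ℝ × ℝ}
    (W1 : Wedge S E e1 e1' w) (W2 : Wedge S E e2 e2' w)
    (u1 : w.2 < e1'.ht w.1) (u2 : w.2 < e2'.ht w.1) : e1' = e2' := by
  by_contra hne
  have aux : ∀ {e e' : Edge}, Wedge S E e e' w → w.2 < e'.ht w.1 → w.1 < e'.b.1 := by
    intro e e' W u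
    refine lt_of_le_of_ne (W.le_b' h) fun hh => ?_
    have : w = e'.b := h.inj _ W.hw _ (h.hb _ W.he') hh
    have h1 : e'.b.2 = e'.ht e'.b.1 := h.lb e' W.he'
    rw [← this] at h1
    exact u.ne h1
  have a1 := aux W1 u1
  have a2 := aux W2 u2
  have x1 : e1'.a.1 < w.1 := W1.ea ▸ W1.wx
  have x2 : e2'.a.1 < w.1 := W2.ea ▸ W2.wx
  have := h.hx _ W1.he' _ W2.he' hne w.1 x1 a1 x2 a2
  rcases lt_or_gt_of_ne this with c | c
  · exact W2.noEnter h W1.he' x1 a1.le (lt_of_le_of_lt W2.lo u1) c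
  · exact W1.noEnter h W2.he' x2 a2.le (lt_of_le_of_lt W1.lo u2) c

lemma wedge_down (h : Plane S E) {e1 e1' e2 e2' : Edge} {w : ℝ × ℝ}
    (W1 : Wedge S E e1 e1' w) (W2 : Wedge S E e2 e2' w)
    (u1 : e1.ht w.1 < w.2) (u2 : e2.ht w.1 < w.2) : e1' = e2' := by
  have aux : ∀ {e e' : Edge}, Wedge S E e e' w → e.ht w.1 < w.2 → w.1 < e.b.1 := by
    intro e e' W u
    refine lt_of_le_of_ne (W.le_b h) fun hh => ?_
    have : w = e.b := h.inj _ W.hw _ (h.hb _ W.he) hh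
    have h1 : e.b.2 = e.ht e.b.1 := h.lb e W.he
    rw [← this] at h1
    exact u.ne h1.symm
  have a1 := aux W1 u1
  have a2 := aux W2 u2
  have h12 : e1 = e2 := by
    by_contra hne
    have := h.hx _ W1.he _ W2.he hne w.1 W1.wx a1 W2.wx a2
    rcases lt_or_gt_of_ne this with c | c
    · exact W1.noEnter h W2.he W2.wx a2.le c (lt_of_lt_of_le u2 W1.hi)
    · exact W2.noEnter h W1.he W1.wx a1.le c (lt_of_lt_of_le u1 W2.hi)
  subst h12
  refine h.eq_of_slope W1.he' W2.he' (W1.ea.symm.trans W2.ea) ?_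
  rcases lt_trichotomy e1'.l.1 e2'.l.1 with c | c | c
  · exact (W2.cons _ W1.he' W1.ea.symm W1.sl c).elim
  · exact c
  · exact (W1.cons _ W2.he' W2.ea.symm W2.sl c).elim

/-- A plane straight-line graph on `n` vertices has at most `3 n` edges. -/
theorem Plane.card_le (h : Plane S E) : E.card ≤ 3 * S.card := by
  classical
  let D := E.filter fun e' => ∃ e ∈ E, e.a = e'.a ∧ e.l.1 < e'.l.1
  let D' := E.filter fun e' => ¬ ∃ e ∈ E, e.a = e'.a ∧ e.l.1 < e'.l.1
  have hsplit : D.card + D'.card = E.card := card_filter_add_card_filter_not _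
  have h1 : D'.card ≤ S.card := by
    refine card_le_card_of_injOn (fun e => e.a) (fun e he => h.ha e (mem_filter.1 he).1) ?_
    intro e he g hg hab
    obtain ⟨he, he2⟩ := mem_filter.1 he
    obtain ⟨hg, hg2⟩ := mem_filter.1 hg
    refine h.eq_of_slope he hg hab ?_
    rcases lt_trichotomy e.l.1 g.l.1 with c | c | c
    · exact (hg2 ⟨e, he, hab, c⟩).elim
    · exact c
    · exact (he2 ⟨g, hg, hab.symm, c⟩).elim
  have h2 : D.card ≤ (S ×ˢ (univ : Finset Bool)).card := by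
    refine card_le_card_of_forall_subsingleton
      (fun e' (y : (ℝ × ℝ) × Bool) => ∃ e, Wedge S E e e' y.1 ∧
        (if y.2 = true then y.1.2 < e'.ht y.1.1 else e.ht y.1.1 < y.1.2)) ?_ ?_
    · intro e' he'
      obtain ⟨he', hex⟩ := mem_filter.1 he'
      obtain ⟨e, w, W⟩ := exists_wedge h he' hex
      by_cases c : w.2 < e'.ht w.1
      · exact ⟨(w, true), by simp [W.hw], e, W, by simpa using c⟩
      · refine ⟨(w, false), by simp [W.hw], e, W, ?_⟩
        have s := ht_sub h W.he W.he' W.ea w.1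
        have s1 := W.sl
        have s2 := W.wx
        have : e.ht w.1 < w.2 := by
          push Not at c
          nlinarith
        simpa using this
    · rintro ⟨w, b⟩ - e1' ⟨-, e1, W1, c1⟩ e2' ⟨-, e2, W2, c2⟩
      cases b
      · exact wedge_down h W1 W2 (by simpa using c1) (by simpa using c2)
      · exact wedge_up h W1 W2 (by simpa using c1) (by simpa using c2)
  rw [card_product] at h2
  simp only [card_univ, Fintype.card_bool] at h2
  omega

end Pool.Agent.Lib.Incidence
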