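import Pool.Agent.Lib.Incidence.Crossing

/-!
Szemeredi-Trotter bound for rich lines, the middle-range estimate behind Beck's theorem, and a
weak form of Melchior's inequality.
-/

namespace Pool.Agent.Lib.Incidence

open Finset

/-- Horizontal shear. -/
def shear (t : ℝ) (z : ℝ × ℝ) : ℝ × ℝ := (z.1 + t * z.2, z.2)

lemma shear_inj (t : ℝ) : Function.Injective (shear t) := by
  intro u v h
  have h1 : u.1 + t * u.2 = v.1 + t * v.2 := congrArg Prod.fst h
  have h2 : u.2 = v.2 := (congrArg Prod.snd h :)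
  refine Prod.ext ?_ h2
  rw [h2] at h1
  linarith

lemma shear_surj (t : ℝ) : Function.Surjective (shear t) := by
  intro z
  refine ⟨(z.1 - t * z.2, z.2), Prod.ext ?_ rfl⟩
  simp [shear]

lemma exists_shear (S L : Finset (ℝ × ℝ)) : ∃ t : ℝ,
    (∀ v ∈ S, ∀ w ∈ S, (shear t v).1 = (shear t w).1 → v = w) ∧ ∀ l ∈ L, 1 + l.1 * t ≠ 0 := by
  classical
  obtain ⟨t, ht⟩ := Infinite.exists_notMem_finset
    (((S ×ˢ S).image fun e => (e.2.1 - e.1.1) / (e.1.2 - e.2.2)) ∪ L.image fun l => -1 / l.1)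
  rw [mem_union, not_or] at ht
  refine ⟨t, ?_, ?_⟩
  · intro v hv w hw h
    have h1 : v.1 + t * v.2 = w.1 + t * w.2 := h
    by_cases c : v.2 = w.2
    · refine Prod.ext ?_ c
      rw [c] at h1
      linarith
    · refine (ht.1 (mem_image.2 ⟨(v, w), mem_product.2 ⟨hv, hw⟩, ?_⟩)).elim
      have : v.2 - w.2 ≠ 0 := sub_ne_zero.2 c
      field_simp
      linarith
  · intro l hl h
    refine ht.2 (mem_image.2 ⟨l, hl, ?_⟩)
    have : l.1 ≠ 0 := by
      intro h0
      rw [h0] at h
      simp at h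
    field_simp
    linarith

/-- Image of a line under the shear. -/
noncomputable def shearL (t : ℝ) (l : ℝ × ℝ) : ℝ × ℝ := (l.1 / (1 + l.1 * t), l.2 / (1 + l.1 * t))

lemma on_shear {t : ℝ} {l : ℝ × ℝ} (h : 1 + l.1 * t ≠ 0) (z : ℝ × ℝ) :
    On (shearL t l) (shear t z) ↔ On l z := by
  unfold On shearL shear
  simp only
  constructor
  · intro h1
    field_simp at h1
    linarith
  · intro h1
    field_simp
    linarith

lemma shearL_inj {t : ℝ} {l l' : ℝ × ℝ} (h : 1 + l.1 * t ≠ 0) (h' : 1 + l'.1 * t ≠ 0)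
    (e : shearL t l = shearL t l') : l = l' := by
  have h0 : On l' (0, l.2) := by
    rw [← on_shear h', ← e, on_shear h]
    simp [On]
  have h1 : On l' (1, l.1 + l.2) := by
    rw [← on_shear h', ← e, on_shear h]
    simp [On]
  unfold On at h0 h1
  simp only at h0 h1
  exact Prod.ext (by linarith) (by linarith)

/-- Crossing-lemma inequality for the points `S` and non-vertical lines `L`. -/
theorem crossing_ineq (S L : Finset (ℝ × ℝ)) {p : ℝ} (h0 : 0 ≤ p) (h1 : p ≤ 1) :
    p ^ 2 * ∑ l ∈ L, (((pts S l).card : ℝ) - 1) ≤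
      3 * p * S.card + p ^ 4 * (meetOut S L).card := by
  classical
  obtain ⟨t, ht1, ht2⟩ := exists_shear S L
  have h := crossing_ineq_inj (S := S.image (shear t)) (L := L.image (shearL t)) (by
    intro v hv w hw hvw
    obtain ⟨v, hv', rfl⟩ := mem_image.1 hv
    obtain ⟨w, hw', rfl⟩ := mem_image.1 hw
    rw [ht1 v hv' w hw' hvw]) h0 h1
  rw [sum_image fun l hl l' hl' e => shearL_inj (ht2 l hl) (ht2 l' hl') e,
    card_image_of_injective _ (shear_inj t)] at h
  have e1 : ∀ l ∈ L, (((pts (S.image (shear t)) (shearL t l)).card : ℝ) - 1)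
      = ((pts S l).card : ℝ) - 1 := by
    intro l hl
    have : pts (S.image (shear t)) (shearL t l) = (pts S l).image (shear t) := by
      ext z
      obtain ⟨z, rfl⟩ := shear_surj t z
      rw [mem_pts, on_shear (ht2 l hl), (shear_inj t).mem_finset_image,
        (shear_inj t).mem_finset_image, mem_pts]
    rw [this, card_image_of_injective _ (shear_inj t)]
  rw [sum_congr rfl e1] at h
  have e2 : (meetOut (S.image (shear t)) (L.image (shearL t))).card ≤ (meetOut S L).card := by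
    refine le_trans (card_le_card ?_)
      (card_image_le (f := fun e => (shearL t e.1, shearL t e.2)))
    rintro ⟨m, m'⟩ hm
    obtain ⟨⟨m1, m2⟩, m3, z, z1, z2, z3⟩ := mem_meetOut.1 hm
    obtain ⟨l, hl, rfl⟩ := mem_image.1 m1
    obtain ⟨l', hl', rfl⟩ := mem_image.1 m2
    obtain ⟨z, rfl⟩ := shear_surj t z
    refine mem_image.2 ⟨(l, l'), mem_meetOut.2 ⟨⟨hl, hl'⟩, ?_, z, ?_, ?_, ?_⟩, rfl⟩
    · intro hh
      exact m3 (congrArg (shearL t) hh)
    · exact (on_shear (ht2 l hl) z).1 z1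
    · exact (on_shear (ht2 l' hl') z).1 z2
    · exact fun hz => z3 (mem_image_of_mem _ hz)
  have e3 : ((meetOut (S.image (shear t)) (L.image (shearL t))).card : ℝ) ≤ (meetOut S L).card := by
    exact_mod_cast e2
  have p4 : 0 ≤ p ^ 4 := by positivity
  nlinarith [mul_le_mul_of_nonneg_left e3 p4]

lemma card_meetOut_le (S L : Finset (ℝ × ℝ)) : ((meetOut S L).card : ℝ) ≤ (L.card : ℝ) ^ 2 := by
  have : (meetOut S L).card ≤ (L ×ˢ L).card :=
    card_le_card fun t ht => mem_product.2 (mem_meetOut.1 ht).1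
  rw [card_product] at this
  rw [sq]
  exact_mod_cast this

/-- Szemeredi-Trotter bound on the number of `k`-rich lines. -/
theorem rich_lines (S L : Finset (ℝ × ℝ)) {k : ℝ} (hk : 2 ≤ k)
    (h : ∀ l ∈ L, k ≤ (pts S l).card) :
    (L.card : ℝ) ≤ 576 * (S.card : ℝ) ^ 2 / k ^ 3 + 12 * S.card / k := by
  set n : ℝ := (S.card : ℝ) with hn
  set m : ℝ := (L.card : ℝ) with hm
  have k0 : 0 < k := by linarith
  have n0 : 0 ≤ n := by positivity
  have t1 : 0 ≤ 576 * n ^ 2 / k ^ 3 := by positivity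
  have t2 : 0 ≤ 12 * n / k := by positivity
  by_cases c : m ≤ 12 * n / k
  · linarith
  push Not at c
  have m0 : 0 < m := by linarith
  have npos : 0 < n := by
    have : L.Nonempty := by
      rw [← card_pos]
      rw [hm] at m0
      exact_mod_cast m0
    obtain ⟨l, hl⟩ := this
    have h1 := h l hl
    have h2 : ((pts S l).card : ℝ) ≤ n := by
      rw [hn]
      exact_mod_cast card_le_card fun z hz => (mem_pts.1 hz).1
    linarith
  set p : ℝ := 12 * n / (k * m) with hp
  have p0 : 0 < p := by positivity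
  have p1 : p ≤ 1 := by
    rw [hp, div_le_one (by positivity)]
    rw [div_lt_iff₀ k0] at c
    linarith
  have h1 := crossing_ineq S L p0.le p1
  have h2 := card_meetOut_le S L
  have h3 : m * (k / 2) ≤ ∑ l ∈ L, (((pts S l).card : ℝ) - 1) := by
    have : ∑ _l ∈ L, k / 2 ≤ ∑ l ∈ L, (((pts S l).card : ℝ) - 1) :=
      sum_le_sum fun l hl => by have := h l hl; linarith
    simpa using this
  have h4 : p ^ 2 * (m * (k / 2)) ≤ 3 * p * n + p ^ 4 * m ^ 2 := by
    have a1 : 0 ≤ p ^ 2 := by positivity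
    have a2 : 0 ≤ p ^ 4 := by positivity
    nlinarith [mul_le_mul_of_nonneg_left h3 a1, mul_le_mul_of_nonneg_left h2 a2]
  have h5 : p ^ 2 * (m * (k / 2)) = 6 * p * n := by
    rw [hp]
    field_simp
    ring
  have h6 : 3 * n ≤ p ^ 3 * m ^ 2 := by
    have : p * (3 * n) ≤ p * (p ^ 3 * m ^ 2) := by nlinarith
    exact le_of_mul_le_mul_left this p0
  have h7 : p ^ 3 * m ^ 2 = 3 * n * ((576 * n ^ 2 / k ^ 3) / m) := by
    rw [hp]
    field_simp
    ring
  rw [h7] at h6
  have h8 : 1 ≤ (576 * n ^ 2 / k ^ 3) / m := by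
    by_contra hc
    push Not at hc
    nlinarith
  rw [le_div_iff₀ m0] at h8
  linarith

/-- Pairs of points on distinct lines are distinct. -/
theorem sum_pairs_le (S L : Finset (ℝ × ℝ)) :
    ∑ l ∈ L, (((pts S l).card : ℝ) ^ 2 - (pts S l).card) ≤ (S.card : ℝ) ^ 2 := by
  classical
  have h1 : (L.biUnion fun l => (pts S l).offDiag).card = ∑ l ∈ L, (pts S l).offDiag.card := by
    refine card_biUnion fun l _ l' _ hne => ?_
    rw [Function.onFun, disjoint_left]
    rintro ⟨u, v⟩ h1 h2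
    obtain ⟨a1, a2, a3⟩ := mem_offDiag.1 h1
    obtain ⟨b1, b2, -⟩ := mem_offDiag.1 h2
    have a1 := (mem_pts.1 a1).2
    have a2 := (mem_pts.1 a2).2
    have b1 := (mem_pts.1 b1).2
    have b2 := (mem_pts.1 b2).2
    have : u.1 ≠ v.1 := fun hh => a3 (a1.eq_of_fst a2 hh)
    exact hne (line_eq this (a1.symm.trans b1) (a2.symm.trans b2))
  have h2 : (L.biUnion fun l => (pts S l).offDiag).card ≤ (S ×ˢ S).card := by
    refine card_le_card fun e he => ?_
    obtain ⟨l, -, hl⟩ := mem_biUnion.1 he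
    obtain ⟨a1, a2, -⟩ := mem_offDiag.1 hl
    exact mem_product.2 ⟨(mem_pts.1 a1).1, (mem_pts.1 a2).1⟩
  rw [h1, card_product] at h2
  have h3 : ((∑ l ∈ L, (pts S l).offDiag.card : ℕ) : ℝ) ≤ (S.card : ℝ) ^ 2 := by
    rw [sq]
    exact_mod_cast h2
  refine le_trans (le_of_eq ?_) h3
  push_cast
  refine sum_congr rfl fun l _ => ?_
  rw [offDiag_card, Nat.cast_sub (Nat.le_mul_self _)]
  push_cast
  ring

/-- Middle-range estimate: lines with at least `K` and at most `M` points carry few pairs. -/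
theorem middle_range (S L : Finset (ℝ × ℝ)) {K : ℕ} (hK : 2 ≤ K) {M : ℕ}
    (h : ∀ l ∈ L, K ≤ (pts S l).card ∧ (pts S l).card ≤ M) :
    ∑ l ∈ L, ((pts S l).card : ℝ) ^ 2 ≤ 1728 * (S.card : ℝ) ^ 2 / K + 36 * S.card * M := by
  classical
  set n : ℝ := (S.card : ℝ) with hn
  have n0 : 0 ≤ n := by positivity
  have K2 : (2 : ℝ) ≤ K := by exact_mod_cast hK
  have K0 : (0 : ℝ) < K := by linarith
  rcases L.eq_empty_or_nonempty with rfl | ⟨l0, hl0⟩
  · simp only [sum_empty]
    positivity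
  have hKM : K ≤ M := (h l0 hl0).1.trans (h l0 hl0).2
  have key : ∀ j, K ≤ j → ∑ l ∈ L, ((min (pts S l).card j : ℕ) : ℝ) ^ 2 ≤
      1728 * n ^ 2 / K - 1152 * n ^ 2 / j + 12 * n * K + 24 * n * j := by
    intro j hj
    induction j, hj using Nat.le_induction with
    | base =>
      have h1 := rich_lines S L K2 fun l hl => by exact_mod_cast (h l hl).1
      have h2 : ∑ l ∈ L, ((min (pts S l).card K : ℕ) : ℝ) ^ 2 = L.card * (K : ℝ) ^ 2 := by
        rw [sum_congr rfl fun l hl => by rw [min_eq_right (h l hl).1]]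
        simp
      rw [h2]
      have h3 : (576 * n ^ 2 / K ^ 3 + 12 * n / K) * (K : ℝ) ^ 2 =
          1728 * n ^ 2 / K - 1152 * n ^ 2 / K + 12 * n * K := by
        field_simp
        ring
      have h4 : (L.card : ℝ) * (K : ℝ) ^ 2 ≤ (576 * n ^ 2 / K ^ 3 + 12 * n / K) * (K : ℝ) ^ 2 :=
        mul_le_mul_of_nonneg_right h1 (by positivity)
      have h5 : 0 ≤ 24 * n * K := by positivity
      linarith
    | succ j hj ih =>
      have j2 : (2 : ℝ) ≤ j := by exact_mod_cast hK.trans hj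
      have j0 : (0 : ℝ) < j := by linarith
      have h1 := rich_lines S (L.filter fun l => j + 1 ≤ (pts S l).card) (k := (j : ℝ) + 1)
        (by linarith) fun l hl => by exact_mod_cast (mem_filter.1 hl).2
      have h2 : ∑ l ∈ L, ((min (pts S l).card (j + 1) : ℕ) : ℝ) ^ 2 =
          ∑ l ∈ L, ((min (pts S l).card j : ℕ) : ℝ) ^ 2 +
          (2 * j + 1) * ((L.filter fun l => j + 1 ≤ (pts S l).card).card : ℝ) := by
        rw [card_filter]
        push_cast [-Nat.cast_min]
        rw [mul_sum, ← sum_add_distrib]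
        refine sum_congr rfl fun l _ => ?_
        split_ifs with c
        · rw [min_eq_right c, min_eq_right (by omega)]
          push_cast
          ring
        · rw [min_eq_left (by omega), min_eq_left (by omega)]
          ring
      rw [h2]
      have h3 : (2 * j + 1) * ((L.filter fun l => j + 1 ≤ (pts S l).card).card : ℝ) ≤
          (2 * (j + 1)) * (576 * n ^ 2 / (j + 1) ^ 3 + 12 * n / (j + 1)) :=
        mul_le_mul (by linarith) h1 (by positivity) (by positivity)
      have h4 : (2 * ((j : ℝ) + 1)) * (576 * n ^ 2 / (j + 1) ^ 3 + 12 * n / (j + 1)) =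
          1152 * n ^ 2 / (j + 1) ^ 2 + 24 * n := by
        field_simp
        ring
      have h5 : 1152 * n ^ 2 / ((j : ℝ) + 1) ^ 2 ≤ 1152 * n ^ 2 / j - 1152 * n ^ 2 / (j + 1) := by
        have : 1152 * n ^ 2 / j - 1152 * n ^ 2 / (j + 1) = 1152 * n ^ 2 / (j * (j + 1)) := by
          field_simp
          ring
        rw [this]
        refine div_le_div_of_nonneg_left (by positivity) (by positivity) (by nlinarith)
      push_cast [-Nat.cast_min]
      linarith
  have h1 := key M hKM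
  rw [sum_congr rfl fun l hl => by rw [min_eq_left (h l hl).2]] at h1
  have h2 : (K : ℝ) ≤ M := by exact_mod_cast hKM
  have h3 : 0 ≤ 1152 * n ^ 2 / M := by positivity
  nlinarith

/-- The line through two points with different abscissae. -/
noncomputable def thru (a b : ℝ × ℝ) : ℝ × ℝ :=
  ((b.2 - a.2) / (b.1 - a.1), a.2 - (b.2 - a.2) / (b.1 - a.1) * a.1)

lemma on_thru_left (a b : ℝ × ℝ) : On (thru a b) a := by
  unfold On thru
  ring

lemma on_thru_right {a b : ℝ × ℝ} (h : a.1 ≠ b.1) : On (thru a b) b := by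
  unfold On thru
  have : b.1 - a.1 ≠ 0 := sub_ne_zero.2 h.symm
  field_simp
  ring

lemma line_eq_of_two {l l' a b : ℝ × ℝ} (h : a ≠ b) (h1 : On l a) (h2 : On l b) (h3 : On l' a)
    (h4 : On l' b) : l = l' :=
  line_eq (fun hh => h (h1.eq_of_fst h2 hh)) (h1.symm.trans h3) (h2.symm.trans h4)

open Classical in
/-- The lines spanned by `S`. -/
noncomputable def lines (S : Finset (ℝ × ℝ)) : Finset (ℝ × ℝ) :=
  S.offDiag.image fun e => thru e.1 e.2

/-- Points have distinct abscissae. -/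
def XInj (S : Finset (ℝ × ℝ)) : Prop := ∀ v ∈ S, ∀ w ∈ S, v.1 = w.1 → v = w

lemma XInj.mono {S T : Finset (ℝ × ℝ)} (h : XInj S) (hT : T ⊆ S) : XInj T :=
  fun v hv w hw => h v (hT hv) w (hT hw)

lemma XInj.on_thru {S : Finset (ℝ × ℝ)} (h : XInj S) {a b : ℝ × ℝ} (ha : a ∈ S) (hb : b ∈ S)
    (hab : a ≠ b) : On (thru a b) b :=
  on_thru_right fun hh => hab (h a ha b hb hh)

lemma XInj.mem_lines {S : Finset (ℝ × ℝ)} (h : XInj S) {l : ℝ × ℝ} :
    l ∈ lines S ↔ ∃ a ∈ S, ∃ b ∈ S, a ≠ b ∧ On l a ∧ On l b := by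
  classical
  unfold lines
  rw [mem_image]
  constructor
  · rintro ⟨⟨a, b⟩, hab, rfl⟩
    obtain ⟨h1, h2, h3⟩ := mem_offDiag.1 hab
    exact ⟨a, h1, b, h2, h3, on_thru_left _ _, h.on_thru h1 h2 h3⟩
  · rintro ⟨a, h1, b, h2, h3, h4, h5⟩
    exact ⟨(a, b), mem_offDiag.2 ⟨h1, h2, h3⟩,
      line_eq_of_two h3 (on_thru_left _ _) (h.on_thru h1 h2 h3) h4 h5⟩

lemma XInj.two_le {S : Finset (ℝ × ℝ)} (h : XInj S) {l : ℝ × ℝ} (hl : l ∈ lines S) :
    2 ≤ (pts S l).card := by
  obtain ⟨a, h1, b, h2, h3, h4, h5⟩ := h.mem_lines.1 hl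
  exact one_lt_card.2 ⟨a, mem_pts.2 ⟨h1, h4⟩, b, mem_pts.2 ⟨h2, h5⟩, h3⟩

/-- Weak Melchior inequality. -/
theorem melchior {S : Finset (ℝ × ℝ)} (h : XInj S) :
    ∑ l ∈ lines S, (((pts S l).card : ℝ) - 3) ≤ S.card := by
  classical
  let d : ℝ × ℝ → ℝ × ℝ := fun a => (-a.1, a.2)
  have dinj : Function.Injective d := by
    intro a b hab
    have h1 : -a.1 = -b.1 := congrArg Prod.fst hab
    have h2 : a.2 = b.2 := (congrArg Prod.snd hab :)
    exact Prod.ext (by linarith) h2
  have dual : ∀ a l : ℝ × ℝ, On (d a) l ↔ On l a := by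
    intro a l
    unfold On
    simp only [d]
    constructor <;> intro hh <;> linarith
  have h1 := crossing_ineq (lines S) (S.image d) zero_le_one le_rfl
  have h2 : meetOut (lines S) (S.image d) = ∅ := by
    refine eq_empty_of_forall_notMem ?_
    rintro ⟨m, m'⟩ hm
    obtain ⟨⟨m1, m2⟩, m3, z, z1, z2, z3⟩ := mem_meetOut.1 hm
    obtain ⟨a, ha, rfl⟩ := mem_image.1 m1
    obtain ⟨b, hb, rfl⟩ := mem_image.1 m2
    refine z3 (h.mem_lines.2 ⟨a, ha, b, hb, ?_, (dual _ _).1 z1, (dual _ _).1 z2⟩)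
    rintro rfl
    exact m3 rfl
  rw [h2, sum_image fun a _ b _ e => dinj e] at h1
  have h3 : ∑ a ∈ S, ((pts (lines S) (d a)).card : ℝ) = ∑ l ∈ lines S, ((pts S l).card : ℝ) := by
    unfold pts
    simp only [card_filter]
    push_cast
    rw [sum_comm]
    refine sum_congr rfl fun l _ => sum_congr rfl fun a _ => ?_
    simp only [dual]
  rw [sum_sub_distrib, h3] at h1
  rw [sum_sub_distrib]
  simp only [sum_const, nsmul_eq_mul, card_empty] at h1 ⊢
  push_cast at h1
  linarith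

/-- Every ordered pair of distinct points lies on a spanned line. -/
theorem pairs_le_sum {S : Finset (ℝ × ℝ)} (h : XInj S) :
    (S.card : ℝ) ^ 2 - S.card ≤ ∑ l ∈ lines S, ((pts S l).card : ℝ) ^ 2 := by
  classical
  have h1 := card_eq_sum_card_fiberwise (s := S.offDiag) (t := lines S)
    (f := fun e => thru e.1 e.2) (fun e he => mem_image_of_mem _ he)
  have h2 : ((S.offDiag.card : ℕ) : ℝ) = (S.card : ℝ) ^ 2 - S.card := by
    rw [offDiag_card, Nat.cast_sub (Nat.le_mul_self _)]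
    push_cast
    ring
  rw [← h2, h1]
  push_cast
  refine sum_le_sum fun l _ => ?_
  have : (S.offDiag.filter fun e => thru e.1 e.2 = l).card ≤ (pts S l ×ˢ pts S l).card := by
    refine card_le_card fun e he => ?_
    obtain ⟨he', rfl⟩ := mem_filter.1 he
    obtain ⟨a1, a2, a3⟩ := mem_offDiag.1 he'
    exact mem_product.2 ⟨mem_pts.2 ⟨a1, on_thru_left _ _⟩, mem_pts.2 ⟨a2, h.on_thru a1 a2 a3⟩⟩
  rw [card_product] at this
  rw [sq]
  exact_mod_cast this

/-- Beck's theorem when no line is rich. -/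
theorem beck_sparse {S : Finset (ℝ × ℝ)} (h : XInj S) (h4 : 4 ≤ S.card)
    (hM : ∀ l, 144 * (pts S l).card ≤ S.card) :
    (S.card : ℝ) ^ 2 ≤ 4 * 6912 ^ 2 * (lines S).card := by
  classical
  have h1 := pairs_le_sum h
  rw [← sum_filter_add_sum_filter_not (lines S) (fun l => 6912 ≤ (pts S l).card)] at h1
  have h2 := middle_range S ((lines S).filter fun l => 6912 ≤ (pts S l).card) (K := 6912)
    (by norm_num) (M := S.card / 144) fun l hl =>
      ⟨(mem_filter.1 hl).2, by have := hM l; omega⟩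
  have h3 : ∑ l ∈ (lines S).filter fun l => ¬ 6912 ≤ (pts S l).card, ((pts S l).card : ℝ) ^ 2
      ≤ 6912 ^ 2 * (lines S).card := by
    calc _ ≤ ∑ _l ∈ (lines S).filter fun l => ¬ 6912 ≤ (pts S l).card, (6912 : ℝ) ^ 2 := by
          refine sum_le_sum fun l hl => ?_
          have : ((pts S l).card : ℝ) ≤ 6912 := by
            exact_mod_cast (not_le.1 (mem_filter.1 hl).2).le
          gcongr
      _ ≤ 6912 ^ 2 * (lines S).card := by
          rw [sum_const, nsmul_eq_mul, mul_comm]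
          gcongr
          exact filter_subset _ _
  have h5 : ((S.card / 144 : ℕ) : ℝ) ≤ S.card / 144 := Nat.cast_div_le
  have h6 : (4 : ℝ) ≤ S.card := by exact_mod_cast h4
  push_cast at h2
  nlinarith

end Pool.Agent.Lib.Incidence
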